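import Pool.Agent.Lib.MP_c8786f_co.Elec.Odd

/-! The covering theorem with Steiner vertices: split off all non-terminals, then cover. -/

namespace Pool.Agent.Lib.MP_c8786f_co.Weak

open Finset Pool.Agent.Lib.MP_c8786f_co.Elec

set_option linter.unusedSectionVars false

variable {V E : Type} [Fintype V] [DecidableEq V] [Fintype E]

/-- Splitting lemma at a non-terminal vertex of an Eulerian multigraph. -/
lemma exists_split_steiner {s t : E → V} {T : Finset V} {k : ℕ}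
    (hc : ∀ X : Finset V, (∃ x ∈ T, x ∈ X) → (∃ x ∈ T, x ∉ X) → k ≤ cut s t X)
    (v : V) (hvT : v ∉ T) (hv : Even (cut s t {v})) (hv0 : cut s t {v} ≠ 0) :
    ∃ e1 e2 u1 u2, e1 ≠ e2 ∧ u1 ≠ v ∧ u2 ≠ v ∧ At s t v e1 u1 ∧ At s t v e2 u2 ∧
      ∀ X, (∃ x ∈ T, x ∈ X) → (∃ x ∈ T, x ∉ X) → v ∉ X → u1 ∈ X → u2 ∈ X → cut s t X ≠ k := by
  classical
  by_contra hn
  push Not at hn
  set D := univ.filter fun e => ¬(s e ∈ ({v} : Finset V) ↔ t e ∈ ({v} : Finset V)) with hD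
  let o : E → V := fun e => if s e = v then t e else s e
  have ho : ∀ e ∈ D, o e ≠ v ∧ At s t v e (o e) := by
    intro e he
    simp only [hD, mem_filter, mem_univ, true_and, mem_singleton] at he
    by_cases h : s e = v
    · simp only [o, if_pos h]; exact ⟨by tauto, Or.inl ⟨h, rfl⟩⟩
    · simp only [o, if_neg h]; exact ⟨h, Or.inr ⟨rfl, by tauto⟩⟩
  have bad : ∀ e1 ∈ D, ∀ e2 ∈ D, e1 ≠ e2 → ∃ X, (∃ x ∈ T, x ∈ X) ∧ (∃ x ∈ T, x ∉ X) ∧
      v ∉ X ∧ o e1 ∈ X ∧ o e2 ∈ X ∧ cut s t X = k :=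
    fun e1 h1 e2 h2 h => hn e1 e2 _ _ h (ho e1 h1).1 (ho e2 h2).1 (ho e1 h1).2 (ho e2 h2).2
  have hcard : 1 < D.card := by
    rw [hD, ← cut_eq]
    obtain ⟨r, hr⟩ := hv
    omega
  obtain ⟨e1, he1, f2, hf2, hf⟩ := one_lt_card.mp hcard
  obtain ⟨X0, hX0⟩ := bad e1 he1 f2 hf2 hf
  obtain ⟨X, hX, hmax⟩ := exists_max_image (univ.filter fun X : Finset V =>
    (∃ x ∈ T, x ∈ X) ∧ (∃ x ∈ T, x ∉ X) ∧ v ∉ X ∧ cut s t X = k ∧ o e1 ∈ X) card
    ⟨X0, mem_filter.mpr ⟨mem_univ _, hX0.1, hX0.2.1, hX0.2.2.1, hX0.2.2.2.2.2, hX0.2.2.2.1⟩⟩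
  obtain ⟨-, ⟨p1, hp1, hp1X⟩, ⟨p2, hp2, hp2X⟩, hvX, hXk, he1X⟩ := mem_filter.mp hX
  by_cases hall : ∀ e ∈ D, o e ∈ X
  · have h1 : cut s t (insert v X) + cut s t {v} = cut s t X := by
      simp only [cut, ← sum_add_distrib]
      refine sum_congr rfl fun e _ => ?_
      have h2 := hall e
      simp only [hD, mem_filter, mem_univ, true_and, mem_singleton, o] at h2
      by_cases h3 : s e = v <;> by_cases h4 : t e = v <;> simp_all [chi]
    have h2 := hc (insert v X) ⟨p1, hp1, mem_insert_of_mem hp1X⟩ ⟨p2, hp2, fun h => by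
      rcases mem_insert.mp h with h | h
      · exact hvT (h ▸ hp2)
      · exact hp2X h⟩
    omega
  push Not at hall
  obtain ⟨e2, he2, he2X⟩ := hall
  obtain ⟨Y, ⟨q1, hq1, hq1Y⟩, ⟨q2, hq2, hq2Y⟩, hvY, h1Y, h2Y, hYk⟩ :=
    bad e1 he1 e2 he2 (fun h => he2X (h ▸ he1X))
  have k1 := cut_inter_union s t X Y
  have k2 := cut_sdiff s t X Y
  have k5 : 1 ≤ ∑ e, bet (X ∩ Y) (X ∪ Y)ᶜ (s e) (t e) := by
    refine le_trans ?_ (single_le_sum (fun _ _ => Nat.zero_le _) (mem_univ e1))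
    rcases (ho e1 he1).2 with ⟨h1, h2⟩ | ⟨h1, h2⟩ <;> simp [bet, h1, h2, he1X, h1Y, hvX, hvY]
  by_cases hAD : (∃ x ∈ T, x ∈ X ∧ x ∈ Y) ∧ ∃ x ∈ T, x ∉ X ∧ x ∉ Y
  · obtain ⟨⟨a, ha, haX, haY⟩, ⟨d, hd, hdX, hdY⟩⟩ := hAD
    have k6 := hc (X ∩ Y) ⟨a, ha, mem_inter.mpr ⟨haX, haY⟩⟩ ⟨d, hd, by simp [hdX]⟩
    have k7 := hc (X ∪ Y) ⟨a, ha, mem_union_left _ haX⟩ ⟨d, hd, by simp [hdX, hdY]⟩
    have k8 := hmax (X ∪ Y) (mem_filter.mpr ⟨mem_univ _, ⟨a, ha, mem_union_left _ haX⟩,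
      ⟨d, hd, by simp [hdX, hdY]⟩, by simp [hvX, hvY], by omega, mem_union_left _ he1X⟩)
    have k9 : X.card < (X ∪ Y).card :=
      card_lt_card ⟨subset_union_left, fun h => he2X (h (mem_union_right _ h2Y))⟩
    omega
  · have hBC : (∃ x ∈ T, x ∈ X ∧ x ∉ Y) ∧ ∃ x ∈ T, x ∈ Y ∧ x ∉ X := by
      rcases not_and_or.mp hAD with h | h
      · push Not at h
        exact ⟨⟨p1, hp1, hp1X, h p1 hp1 hp1X⟩, ⟨q1, hq1, hq1Y, fun h' => h q1 hq1 h' hq1Y⟩⟩
      · push Not at h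
        exact ⟨⟨q2, hq2, by by_contra h'; exact hq2Y (h q2 hq2 h'), hq2Y⟩,
          ⟨p2, hp2, h p2 hp2 hp2X, hp2X⟩⟩
    obtain ⟨⟨b, hb, hbX, hbY⟩, ⟨c, hcT, hcY, hcX⟩⟩ := hBC
    have k6 := hc (X \ Y) ⟨b, hb, mem_sdiff.mpr ⟨hbX, hbY⟩⟩ ⟨c, hcT, by simp [hcX]⟩
    have k7 := hc (Y \ X) ⟨c, hcT, mem_sdiff.mpr ⟨hcY, hcX⟩⟩ ⟨b, hb, by simp [hbY]⟩
    omega

lemma split_steiner {s t : E → V} {T : Finset V} {lam : ℕ} (hev : ∀ X, Even (cut s t X))
    (hc : ∀ X : Finset V, (∃ x ∈ T, x ∈ X) → (∃ x ∈ T, x ∉ X) → 2 * lam ≤ cut s t X)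
    (v : V) (hvT : v ∉ T) (hv0 : cut s t {v} ≠ 0) :
    ∃ s' t' : E → V, nl s' t' < nl s t ∧ (∀ X, Even (cut s' t' X)) ∧
      (∀ X : Finset V, (∃ x ∈ T, x ∈ X) → (∃ x ∈ T, x ∉ X) → 2 * lam ≤ cut s' t' X) ∧
      ∀ x : E → ℤ, ∃ x' : E → ℤ, (∀ e, ∃ e', |x' e| = |x e'|) ∧ bd s t x' = bd s' t' x := by
  classical
  obtain ⟨e1, e2, u1, u2, h12, hu1, hu2, h1, h2, hX⟩ :=
    exists_split_steiner hc v hvT (hev _) hv0
  let s' : E → V := fun e => if e = e1 then u1 else if e = e2 then v else s e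
  let t' : E → V := fun e => if e = e1 then u2 else if e = e2 then v else t e
  have a1 : s' e1 = u1 := by simp [s']
  have a2 : t' e1 = u2 := by simp [t']
  have a3 : s' e2 = v := by simp [s', h12.symm]
  have a4 : t' e2 = v := by simp [t', h12.symm]
  have a5 : ∀ e, e ≠ e1 → e ≠ e2 → s' e = s e ∧ t' e = t e := fun e h h' => by
    simp [s', t', h, h']
  have n1 : s e1 ≠ t e1 := by
    rcases h1 with ⟨h, h'⟩ | ⟨h, h'⟩ <;> rw [h, h']
    · exact hu1.symm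
    · exact hu1
  have n2 : s e2 ≠ t e2 := by
    rcases h2 with ⟨h, h'⟩ | ⟨h, h'⟩ <;> rw [h, h']
    · exact hu2.symm
    · exact hu2
  have key : ∀ X, v ∉ X → cut s' t' X + (if u1 ∈ X ∧ u2 ∈ X then 2 else 0) = cut s t X := by
    intro X hvX
    have c0 := sum_two (f := fun e => chi X (s' e) (t' e)) (g := fun e => chi X (s e) (t e)) h12
      fun e h h' => by simp only [(a5 e h h').1, (a5 e h h').2]
    have c1 : chi X (s e1) (t e1) = if u1 ∈ X then 1 else 0 := by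
      rcases h1 with ⟨h, h'⟩ | ⟨h, h'⟩ <;> by_cases hu : u1 ∈ X <;> simp [chi, h, h', hu, hvX]
    have c2 : chi X (s e2) (t e2) = if u2 ∈ X then 1 else 0 := by
      rcases h2 with ⟨h, h'⟩ | ⟨h, h'⟩ <;> by_cases hu : u2 ∈ X <;> simp [chi, h, h', hu, hvX]
    simp only [a1, a2, a3, a4, c1, c2] at c0
    change cut s' t' X + _ = cut s t X + _ at c0
    by_cases b1 : u1 ∈ X <;> by_cases b2 : u2 ∈ X <;> simp [chi, b1, b2] at c0 ⊢ <;> omega
  refine ⟨s', t', ?_, ?_, ?_, ?_⟩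
  · refine card_lt_card ⟨fun e he => ?_, fun h => ?_⟩
    · simp only [mem_filter, mem_univ, true_and] at he ⊢
      by_cases b1 : e = e1
      · rwa [b1]
      by_cases b2 : e = e2
      · rwa [b2]
      rwa [(a5 e b1 b2).1, (a5 e b1 b2).2] at he
    · have := h (mem_filter.mpr ⟨mem_univ e2, n2⟩)
      simp [a3, a4] at this
  · have k : ∀ X, v ∉ X → Even (cut s' t' X) := fun X hvX => by
      have c1 := key X hvX
      have c2 := hev X
      rw [Nat.even_iff] at c2 ⊢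
      split_ifs at c1 <;> omega
    intro X
    by_cases hvX : v ∈ X
    · rw [← cut_compl]
      exact k _ (by simpa using hvX)
    · exact k X hvX
  · have k : ∀ X, v ∉ X → (∃ x ∈ T, x ∈ X) → (∃ x ∈ T, x ∉ X) → 2 * lam ≤ cut s' t' X := by
      intro X hvX p q
      have c1 := key X hvX
      have c2 := hev X
      have c3 := hc X p q
      have c4 := hX X p q hvX
      rw [Nat.even_iff] at c2
      split_ifs at c1 with h
      · have := c4 h.1 h.2
        omega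
      · omega
    intro X p q
    by_cases hvX : v ∈ X
    · rw [← cut_compl]
      exact k _ (by simpa using hvX) (by simpa using q) (by simpa using p)
    · exact k X hvX p q
  · intro x
    obtain ⟨z1, hz1, hz1'⟩ := h1.value 0 (x e1)
    obtain ⟨z2, hz2, hz2'⟩ := h2.value 0 (-x e1)
    let x' : E → ℤ := fun e => if e = e1 then z1 else if e = e2 then z2 else x e
    refine ⟨x', fun e => ?_, funext fun w => ?_⟩
    · simp only [x']
      split_ifs
      · exact ⟨e1, by rcases hz1 with h | h <;> simp [h]⟩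
      · exact ⟨e1, by rcases hz2 with h | h <;> simp [h]⟩
      · exact ⟨e, rfl⟩
    · have c0 := sum_two (f := fun e => tm (s e) (t e) w (x' e))
        (g := fun e => tm (s' e) (t' e) w (x e)) h12
        fun e h h' => by simp only [(a5 e h h').1, (a5 e h h').2, x', if_neg h, if_neg h']
      have b1 : x' e1 = z1 := by simp [x']
      have b2 : x' e2 = z2 := by simp [x', h12.symm]
      simp only [a1, a2, a3, a4, b1, b2] at c0
      change bd s t x' w + _ = bd s' t' x w + _ at c0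
      have c1 : tm u1 v w (x e1) + tm u2 v w (-x e1) =
          tm u1 u2 w (x e1) + tm v v w (x e2) := by
        unfold tm; split_ifs <;> ring
      have c2 := zero_dvd_iff.mp (hz1' w)
      have c3 := zero_dvd_iff.mp (hz2' w)
      linarith

theorem steiner_cover {V E : Type} [Fintype V] [DecidableEq V] [Fintype E] (T : Finset V)
    (lam a m : ℕ) (hm : 0 < m) (hlam : m ≤ 2 * a * lam) (s t : E → V)
    (hev : ∀ X, Even (cut s t X))
    (hc : ∀ X : Finset V, (∃ x ∈ T, x ∈ X) → (∃ x ∈ T, x ∉ X) → 2 * lam ≤ cut s t X)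
    (β : V → ℤ) (hβ : (m : ℤ) ∣ ∑ v ∈ T, β v) :
    ∃ x : E → ℤ, (∀ e, |x e| ≤ a) ∧ (∀ v, v ∉ T → bd s t x v = 0) ∧
      ∀ v ∈ T, (m : ℤ) ∣ bd s t x v - β v := by
  classical
  induction hN : nl s t using Nat.strong_induction_on generalizing s t with
  | _ N ih =>
  by_cases hT : ∃ v, v ∉ T ∧ cut s t {v} ≠ 0
  · obtain ⟨v, hvT, hv0⟩ := hT
    obtain ⟨s', t', h1, h2, h3, h4⟩ := split_steiner hev hc v hvT hv0
    obtain ⟨x, hx1, hx2, hx3⟩ := ih _ (hN ▸ h1) s' t' h2 h3 rfl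
    obtain ⟨x', hx', hb⟩ := h4 x
    refine ⟨x', fun e => ?_, hb ▸ hx2, hb ▸ hx3⟩
    obtain ⟨e', he'⟩ := hx' e
    rw [he']; exact hx1 e'
  push Not at hT
  have hin : ∀ e, s e ≠ t e → s e ∈ T ∧ t e ∈ T := by
    intro e he
    have k : ∀ v, v ∉ T → chi {v} (s e) (t e) = 0 := fun v hv =>
      (sum_eq_zero_iff.mp (hT v hv)) e (mem_univ e)
    constructor
    · by_contra h
      have := k _ h
      simp [chi, he.symm] at this
    · by_contra h
      have := k _ h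
      simp [chi, he] at this
  have hT0 : cut s t T = 0 := sum_eq_zero fun e _ => by
    by_cases h : s e = t e
    · simp [chi, h]
    · simp [chi, (hin e h).1, (hin e h).2]
  have hC : Cond (fun e : {e // s e ∈ T ∧ t e ∈ T} => (⟨s e, e.2.1⟩ : T))
      (fun e => ⟨t e, e.2.2⟩) (fun _ => 2 * a) m := by
    intro q
    by_cases hq : 2 ≤ (univ.image q).card
    swap
    · rw [show (univ.image q).card - 1 = 0 by omega]; simp
    have h1 := count_cross (k := 2 * lam) (X := T) (fun Y hY ⟨y, hy⟩ hne => hc Y ⟨y, hY hy, hy⟩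
      (by
        by_contra hn
        push Not at hn
        exact hne (Subset.antisymm hY hn))) q hq
    rw [sum_const, smul_eq_mul]
    obtain ⟨r, hr⟩ : ∃ r, (univ.image q).card = r + 1 := ⟨_, (Nat.sub_add_cancel (by omega)).symm⟩
    rw [hr, hT0] at h1
    rw [hr]
    simp only [Nat.add_sub_cancel]
    generalize (univ.filter fun e : {e // s e ∈ T ∧ t e ∈ T} =>
      q ⟨s e, e.2.1⟩ ≠ q ⟨t e, e.2.2⟩).card = c at h1 ⊢
    have h3 : lam * r ≤ c := by nlinarith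
    calc m * r ≤ 2 * a * lam * r := Nat.mul_le_mul_right _ hlam
      _ = lam * r * (2 * a) := by ring
      _ ≤ c * (2 * a) := Nat.mul_le_mul_right _ h3
  let x1 : E → ℤ := fun _ => -(a : ℤ)
  have hsum : ∑ v : T, bd s t x1 v = 0 := by
    rw [sum_coe_sort T (bd s t x1)]
    simp only [bd]
    rw [sum_comm]
    refine sum_eq_zero fun e _ => ?_
    by_cases h : s e = t e
    · simp [tm, h]
    · simp [tm, sum_sub_distrib, (hin e h).1, (hin e h).2]
  obtain ⟨z, hz, hz'⟩ := cover hm hC (fun v => β v - bd s t x1 v) (by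
    rw [sum_sub_distrib, hsum, sub_zero, sum_coe_sort T β]; exact hβ)
  let z1 : E → ℤ := fun e => if h : s e ∈ T ∧ t e ∈ T then z ⟨e, h⟩ else 0
  refine ⟨fun e => x1 e + z1 e, fun e => ?_, fun w hw => ?_, fun w hw => ?_⟩
  · by_cases h : s e ∈ T ∧ t e ∈ T
    · have := hz ⟨e, h⟩
      simp only [x1, z1, dif_pos h]
      push_cast at this
      rw [abs_le]; omega
    · simp [x1, z1, dif_neg h]
  · refine sum_eq_zero fun e _ => ?_
    by_cases h : s e = t e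
    · simp [tm, h]
    · have n : ∀ y, y ∈ T → y ≠ w := fun y hy h => hw (h ▸ hy)
      simp [tm, n _ (hin e h).1, n _ (hin e h).2]
  · have h1 := hz' ⟨w, hw⟩
    rw [← bd_eq] at h1
    have h2 : bd s t (fun e => x1 e + z1 e) w - β w = bd (fun e : {e // s e ∈ T ∧ t e ∈ T} =>
        (⟨s e, e.2.1⟩ : T)) (fun e => ⟨t e, e.2.2⟩) z ⟨w, hw⟩ - (β w - bd s t x1 w) := by
      have h3 : bd s t (fun e => x1 e + z1 e) w = bd (fun e : {e // s e ∈ T ∧ t e ∈ T} =>
        (⟨s e, e.2.1⟩ : T)) (fun e => ⟨t e, e.2.2⟩) z ⟨w, hw⟩ + bd s t x1 w := by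
        simp only [bd]
        rw [← sum_inside, ← sum_add_distrib]
        refine sum_congr rfl fun e _ => ?_
        by_cases h : s e ∈ T ∧ t e ∈ T
        · simp only [z1, dif_pos h, tm, Subtype.mk.injEq]
          split_ifs <;> ring
        · simp [z1, dif_neg h]
      rw [h3]; ring
    rwa [h2]

end Pool.Agent.Lib.MP_c8786f_co.Weak
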