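import Mathlib

/-! Cubic graphs given by an oriented 2-factor and a perfect matching; darts, walks and flows. -/

namespace Pool.Agent.Lib.MP_c8786f_co.Weak

open Finset

/-- successor along an oriented 2-factor, and partner in the complementary perfect matching -/
structure Cub (V : Type) where
  σ : Equiv.Perm V
  μ : V → V
  μμ : ∀ v, μ (μ v) = v

/-- half-edges: label 0 goes to the successor, 1 to the predecessor, 2 to the partner -/
abbrev Dt (V : Type) := V × Fin 3

namespace Cub

variable {V : Type} (G : Cub V)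

/-- the opposite half-edge -/
def rev (a : Dt V) : Dt V :=
  if a.2 = 0 then (G.σ a.1, 1) else if a.2 = 1 then (G.σ⁻¹ a.1, 0) else (G.μ a.1, 2)

/-- the head of a dart -/
def hd (a : Dt V) : V := (G.rev a).1

/-- non-backtracking continuation -/
def Nx (a a' : Dt V) : Prop := a'.1 = G.hd a ∧ a' ≠ G.rev a

/-- `n` non-backtracking steps -/
inductive Rch : ℕ → Dt V → Dt V → Prop
  | refl (a : Dt V) : Rch 0 a a
  | step {n : ℕ} {a a' x : Dt V} : G.Nx a a' → Rch n a' x → Rch (n + 1) a x

/-- no closed non-backtracking walk with fewer than `K` edges -/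
def Girth (K : ℕ) : Prop := ∀ n a x, G.Rch n a x → n + 1 < K → G.hd x ≠ a.1

/-- size of the edge cut of `X` -/
def dX [Fintype V] [DecidableEq V] (X : Finset V) : ℕ :=
  (univ.filter fun a : Dt V => a.1 ∈ X ∧ G.hd a ∉ X).card

/-- the form in which cyclic edge-connectivity is used -/
def Cyc [Fintype V] [DecidableEq V] (k : ℕ) : Prop :=
  ∀ X : Finset V, k ≤ G.dX X ∨ X.card ≤ G.dX X ∨ Xᶜ.card ≤ G.dX X

/-- antisymmetric functions on darts -/
def Anti {R : Type} [Neg R] (f : Dt V → R) : Prop := ∀ a, f (G.rev a) = -f a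

end Cub

/-- net out-flow at a vertex -/
def bdy {V R : Type} [AddCommMonoid R] (f : Dt V → R) (v : V) : R := ∑ i, f (v, i)

end Pool.Agent.Lib.MP_c8786f_co.Weak
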