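import Pool.Agent.Lib.MP_c8786f_co.Weak.Defs
import Pool.Agent.Shared.HoffmanCirc

/-! From a balanced valuation to circular flows and integer flows. -/

namespace Pool.Agent.Lib.MP_c8786f_co.Weak

open Finset

set_option linter.unusedSectionVars false

variable {V : Type} [Fintype V] [DecidableEq V]

/-- a real flow between integer bounds with integer boundary can be rounded -/
lemma gc_round {E : Type} [Fintype E] (s t : E → V) (l u : E → ℤ) (y : E → ℝ)
    (hy : ∀ e, (l e : ℝ) ≤ y e ∧ y e ≤ u e) (b : V → ℤ)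
    (hb : ∀ v, ∑ e with s e = v, y e - ∑ e with t e = v, y e = b v) :
    ∃ x : E → ℤ, (∀ e, l e ≤ x e ∧ x e ≤ u e) ∧
      ∀ v, ∑ e with s e = v, x e - ∑ e with t e = v, x e = b v := by
  have key : ∀ X : Finset V, ((∑ v ∈ X, b v : ℤ) : ℝ) =
      ∑ e, ((if s e ∈ X then y e else 0) - if t e ∈ X then y e else 0) := by
    intro X
    push_cast
    rw [← sum_congr rfl fun v _ => hb v]
    simp only [sum_filter, ← sum_sub_distrib]
    rw [sum_comm]
    refine sum_congr rfl fun e _ => ?_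
    simp [sum_sub_distrib]
  refine Pool.Agent.Shared.HoffmanCirc.hoffman s t l u b ?_ (fun e => ?_) fun X => ?_
  · have := key univ
    simp only [mem_univ, if_true, sub_self, sum_const_zero] at this
    exact_mod_cast this
  · exact_mod_cast (hy e).1.trans (hy e).2
  · rw [← Int.cast_le (R := ℝ), key]
    push_cast
    simp only [sum_filter, ← sum_sub_distrib]
    refine sum_le_sum fun e _ => ?_
    have := hy e
    by_cases h1 : s e ∈ X <;> by_cases h2 : t e ∈ X <;> simp [h1, h2, this.1, this.2]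

variable (H : SimpleGraph V) [DecidableRel H.Adj] (ix : V → ℕ)

/-- edges, oriented along an enumeration of the vertices -/
abbrev GcE := {p : V × V // H.Adj p.1 p.2 ∧ ix p.1 < ix p.2}

/-- antisymmetric extension of a function on oriented edges -/
def gcExt {R : Type} [AddCommGroup R] (x : GcE H ix → R) (u v : V) : R :=
  if h : H.Adj u v ∧ ix u < ix v then x ⟨(u, v), h⟩
  else if h : H.Adj v u ∧ ix v < ix u then -x ⟨(v, u), h⟩ else 0

lemma gcExt_anti {R : Type} [AddCommGroup R] (x : GcE H ix → R) (u v : V) :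
    gcExt H ix x u v = -gcExt H ix x v u := by
  unfold gcExt
  by_cases h1 : H.Adj u v ∧ ix u < ix v <;> by_cases h2 : H.Adj v u ∧ ix v < ix u
  · omega
  · simp [h1, h2]
  · simp [h1, h2]
  · simp [h1, h2]

lemma gcExt_val {R : Type} [AddCommGroup R] (x : GcE H ix → R) (e : GcE H ix) :
    gcExt H ix x e.1.1 e.1.2 = x e := dif_pos e.2

lemma gcExt_adj {R : Type} [AddCommGroup R] (hix : Function.Injective ix) (x : GcE H ix → R)
    {u v : V} (h : H.Adj u v) : ∃ e, gcExt H ix x u v = x e ∨ gcExt H ix x u v = -x e := by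
  rcases lt_or_gt_of_ne (hix.ne h.ne) with h1 | h1
  · exact ⟨⟨(u, v), h, h1⟩, Or.inl (gcExt_val H ix x ⟨(u, v), h, h1⟩)⟩
  · refine ⟨⟨(v, u), h.symm, h1⟩, Or.inr ?_⟩
    rw [gcExt_anti, gcExt_val H ix x ⟨(v, u), h.symm, h1⟩]

lemma gc_sum {R : Type} [AddCommGroup R] (hix : Function.Injective ix) (F : V → V → R)
    (hF : ∀ u v, F u v = -F v u) (v : V) : ∑ u ∈ H.neighborFinset v, F v u =
      ∑ e : GcE H ix with e.1.1 = v, F e.1.1 e.1.2 -
        ∑ e : GcE H ix with e.1.2 = v, F e.1.1 e.1.2 := by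
  have k : ∀ φ : V × V → R, ∑ e : GcE H ix, φ e.1 =
      ∑ p : V × V, if H.Adj p.1 p.2 ∧ ix p.1 < ix p.2 then φ p else 0 := fun φ => by
    rw [← sum_filter]
    exact (sum_subtype _ (by simp) φ).symm
  have k1 : ∑ e : GcE H ix with e.1.1 = v, F e.1.1 e.1.2 =
      ∑ u, if H.Adj v u ∧ ix v < ix u then F v u else 0 := by
    rw [sum_filter, k fun p => if p.1 = v then F p.1 p.2 else 0, Fintype.sum_prod_type,
      sum_eq_single v (fun w _ hw => by simp [hw]) (by simp)]
    simp
  have k2 : ∑ e : GcE H ix with e.1.2 = v, F e.1.1 e.1.2 =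
      ∑ u, if H.Adj u v ∧ ix u < ix v then F u v else 0 := by
    rw [sum_filter, k fun p => if p.2 = v then F p.1 p.2 else 0, Fintype.sum_prod_type_right,
      sum_eq_single v (fun w _ hw => by simp [hw]) (by simp)]
    simp
  rw [k1, k2, ← sum_sub_distrib, SimpleGraph.neighborFinset_eq_filter, sum_filter]
  refine sum_congr rfl fun u _ => ?_
  by_cases h : H.Adj v u
  · rcases lt_or_gt_of_ne (hix.ne h.ne) with h1 | h1
    · simp [h, h1, h1.not_gt]
    · simp [h, h.symm, h1, h1.not_gt, hF v u]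
  · have h' : ¬H.Adj u v := fun h' => h h'.symm
    simp [h, h']

lemma gc_rev_rev (G : Cub V) (a : Dt V) : G.rev (G.rev a) = a := by
  obtain ⟨v, i⟩ := a
  fin_cases i <;> simp [Cub.rev, G.μμ]

/-- from a balanced valuation to a circular flow and to an integer flow -/
theorem flows_of_valuation (H : SimpleGraph V) [DecidableRel H.Adj] (G : Cub V)
    (h1 : ∀ a : Dt V, H.Adj a.1 (G.hd a))
    (h2 : ∀ u v, H.Adj u v → ∃! i : Fin 3, G.hd (u, i) = v)
    (b : V → ℤ) (g : Dt V → ℝ) (hb : ∀ v, b v = 1 ∨ b v = -1) (hg : G.Anti g)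
    (hbd : ∀ v, bdy g v = b v) (r : ℝ) (hr : 2 ≤ r) (hρ : ∀ a, |g a| ≤ 1 - 2 / r) :
    (∃ f : V → V → ℝ, (∀ u v, f u v = -f v u) ∧
      (∀ u v, H.Adj u v → 1 ≤ |f u v| ∧ |f u v| ≤ r - 1) ∧
      ∀ v, ∑ u ∈ H.neighborFinset v, f v u = 0) ∧
    ∀ q : ℕ, r ≤ q → ∃ f : V → V → ℤ, (∀ u v, f u v = -f v u) ∧
      (∀ u v, H.Adj u v → 1 ≤ |f u v| ∧ |f u v| ≤ q - 1) ∧
      ∀ v, ∑ u ∈ H.neighborFinset v, f v u = 0 := by
  classical
  obtain ⟨ix, hix⟩ := exists_injective_nat V
  have hr0 : 0 < r := by linarith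
  have hinj : ∀ v i j, G.hd (v, i) = G.hd (v, j) → i = j := fun v i j h =>
    (h2 v _ (h1 (v, j))).unique h rfl
  have nb : ∀ {R : Type} [AddCommMonoid R] (φ : V → R) (v : V),
      ∑ u ∈ H.neighborFinset v, φ u = ∑ i, φ (G.hd (v, i)) := by
    intro R _ φ v
    refine (sum_bij (fun i _ => G.hd (v, i)) (fun i _ => ?_) (fun i _ j _ h => hinj v i j h)
      (fun u hu => ?_) fun _ _ => rfl).symm
    · simpa using h1 (v, i)
    · obtain ⟨i, hi, -⟩ := h2 v u (by simpa using hu)
      exact ⟨i, mem_univ _, hi⟩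
  let F : V → V → ℝ := fun u v => ∑ i, if G.hd (u, i) = v then g (u, i) else 0
  have Fv : ∀ u i, F u (G.hd (u, i)) = g (u, i) := fun u i => by
    simp only [F]
    rw [sum_eq_single i (fun j _ hj => if_neg fun h => hj (hinj u j i h)) (by simp), if_pos rfl]
  have F0 : ∀ u v, ¬H.Adj u v → F u v = 0 := fun u v h =>
    sum_eq_zero fun i _ => if_neg fun h' : G.hd (u, i) = v => h (h' ▸ h1 (u, i))
  have hF : ∀ u v, F u v = -F v u := by
    intro u v
    by_cases h : H.Adj u v
    · obtain ⟨i, rfl, -⟩ := h2 u v h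
      have k1 := Fv (G.rev (u, i)).1 (G.rev (u, i)).2
      rw [Prod.mk.eta, hg, show G.hd (G.rev (u, i)) = u by rw [Cub.hd, gc_rev_rev]] at k1
      rw [Fv]
      change _ = -F (G.rev (u, i)).1 u
      rw [k1, neg_neg]
    · rw [F0 u v h, F0 v u fun h' => h h'.symm, neg_zero]
  have Fb : ∀ v, ∑ u ∈ H.neighborFinset v, F v u = b v := fun v => by
    rw [nb, ← hbd, bdy]
    exact sum_congr rfl fun i _ => Fv v i
  have Fle : ∀ e : GcE H ix, |F e.1.1 e.1.2| ≤ 1 - 2 / r := fun e => by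
    obtain ⟨i, hi, -⟩ := h2 _ _ e.2.1
    rw [← hi, Fv]
    exact hρ _
  have h2r : 0 < 2 / r := by positivity
  -- the orientation
  let D : V → ℤ := fun v => ∑ e : GcE H ix with e.1.1 = v, 1 - ∑ e : GcE H ix with e.1.2 = v, 1
  have hD : ∀ v, ∃ c : ℤ, b v + D v = 2 * c := by
    intro v
    have k := gc_sum H ix hix (gcExt H ix fun _ => (1 : ℤ)) (gcExt_anti H ix _) v
    simp only [gcExt_val] at k
    rw [nb, Fin.sum_univ_three] at k
    obtain ⟨_, k0⟩ := gcExt_adj H ix hix (fun _ => (1 : ℤ)) (h1 (v, 0))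
    obtain ⟨_, k1⟩ := gcExt_adj H ix hix (fun _ => (1 : ℤ)) (h1 (v, 1))
    obtain ⟨_, k2⟩ := gcExt_adj H ix hix (fun _ => (1 : ℤ)) (h1 (v, 2))
    have k3 := hb v
    refine ⟨(b v + D v) / 2, ?_⟩
    simp only [D, ← k]
    simp only at k0 k1 k2
    omega
  choose c hc using hD
  obtain ⟨z, hz, hz'⟩ := gc_round (fun e : GcE H ix => e.1.1) (fun e => e.1.2) 0 1
    (fun e => (F e.1.1 e.1.2 + 1) / 2) (fun e => by
      have := abs_le.mp (Fle e)
      simp only [Pi.zero_apply, Pi.one_apply, Int.cast_zero, Int.cast_one]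
      constructor <;> linarith) c (fun v => by
      have k1 := gc_sum H ix hix F hF v
      have k2 : ((b v + D v : ℤ) : ℝ) = 2 * c v := by exact_mod_cast hc v
      simp only [D] at k2
      push_cast at k2
      rw [Fb] at k1
      simp only [← sum_div, sum_add_distrib]
      linarith)
  let y : GcE H ix → ℝ := fun e => r / 2 * (2 * z e - 1 - F e.1.1 e.1.2)
  have hy : ∀ e, (z e = 1 ∧ 1 ≤ y e ∧ y e ≤ r - 1) ∨ (z e = 0 ∧ -(r - 1) ≤ y e ∧ y e ≤ -1) := by
    intro e
    have k1 := abs_le.mp (Fle e)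
    have k2 := hz e
    simp only [Pi.zero_apply, Pi.one_apply] at k2
    have k3 : r / 2 * (2 / r) = 1 := by field_simp
    have k4 : 0 < r / 2 := by positivity
    have k5 := mul_le_mul_of_nonneg_left k1.1 k4.le
    have k6 := mul_le_mul_of_nonneg_left k1.2 k4.le
    rcases (by omega : z e = 1 ∨ z e = 0) with h | h
    · refine Or.inl ⟨h, ?_⟩
      simp only [y, h]
      push_cast
      constructor <;> nlinarith
    · refine Or.inr ⟨h, ?_⟩
      simp only [y, h]
      push_cast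
      constructor <;> nlinarith
  have hy0 : ∀ v, ∑ e : GcE H ix with e.1.1 = v, y e - ∑ e : GcE H ix with e.1.2 = v, y e = 0 := by
    intro v
    have k1 := gc_sum H ix hix F hF v
    have k2 : ((b v + D v : ℤ) : ℝ) = 2 * c v := by exact_mod_cast hc v
    have k3 : ((∑ e : GcE H ix with e.1.1 = v, z e - ∑ e : GcE H ix with e.1.2 = v, z e : ℤ) : ℝ) =
      c v := by exact_mod_cast hz' v
    simp only [D] at k2
    push_cast at k2 k3
    rw [Fb] at k1
    simp only [y, ← mul_sum, sum_sub_distrib]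
    rw [← mul_sub]
    refine mul_eq_zero_of_right _ ?_
    linarith
  refine ⟨⟨gcExt H ix y, gcExt_anti H ix y, fun u v h => ?_, fun v => ?_⟩, fun q hq => ?_⟩
  · obtain ⟨e, he⟩ := gcExt_adj H ix hix y h
    have k : |gcExt H ix y u v| = |y e| := by rcases he with he | he <;> simp [he]
    rw [k]
    rcases hy e with ⟨-, k1, k2⟩ | ⟨-, k1, k2⟩
    · rw [abs_of_nonneg (by linarith)]; exact ⟨k1, k2⟩
    · rw [abs_of_nonpos (by linarith)]; constructor <;> linarith
  · rw [gc_sum H ix hix _ (gcExt_anti H ix y)]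
    simp only [gcExt_val]
    exact hy0 v
  · obtain ⟨x, hx, hx'⟩ := gc_round (fun e : GcE H ix => e.1.1) (fun e => e.1.2)
      (fun e => if z e = 1 then 1 else -((q : ℤ) - 1)) (fun e => if z e = 1 then (q : ℤ) - 1 else -1)
      y (fun e => by
        rcases hy e with ⟨k0, k1, k2⟩ | ⟨k0, k1, k2⟩
        · rw [if_pos k0, if_pos k0]; push_cast; constructor <;> linarith
        · rw [if_neg (by omega), if_neg (by omega)]; push_cast; constructor <;> linarith) 0 (fun v => by simpa using hy0 v)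
    refine ⟨gcExt H ix x, gcExt_anti H ix x, fun u v h => ?_, fun v => ?_⟩
    · obtain ⟨e, he⟩ := gcExt_adj H ix hix x h
      have k : |gcExt H ix x u v| = |x e| := by rcases he with he | he <;> simp [he]
      rw [k]
      have k1 := hx e
      split_ifs at k1
      · rw [abs_of_nonneg (by omega)]; exact k1
      · rw [abs_of_nonpos (by omega)]; omega
    · rw [gc_sum H ix hix _ (gcExt_anti H ix x)]
      simp only [gcExt_val]
      exact hx' v

end Pool.Agent.Lib.MP_c8786f_co.Weak
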